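import Mathlib

/-! Directional derivatives of polynomials over fields with an absolute value (helper77). -/

set_option autoImplicit false

open Filter Topology MvPolynomial

namespace Pool.Agent.T6.H77.SQ

section alg

variable {α R : Type} [Fintype α] [CommRing R]

/-- the differential `DF(z)w` -/
noncomputable def d1 (F : MvPolynomial α R) (z w : α → R) : R := ∑ i, eval z (pderiv i F) * w i

/-- the second differential `D²F(z)(w, w')` -/
noncomputable def d2 (F : MvPolynomial α R) (z w w' : α → R) : R :=
  ∑ j, w' j * ∑ i, eval z (pderiv i (pderiv j F)) * w i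

/-- `F(z + w) - F(z) - DF(z)w` -/
noncomputable def qp (F : MvPolynomial α R) (z w : α → R) : R :=
  eval (z + w) F - eval z F - d1 F z w

theorem d1_add (F : MvPolynomial α R) (z w w' : α → R) : d1 F z (w + w') = d1 F z w + d1 F z w' := by
  simp only [d1, ← Finset.sum_add_distrib]
  exact Finset.sum_congr rfl fun i _ => by simp only [Pi.add_apply]; ring

theorem d1_smul (F : MvPolynomial α R) (z w : α → R) (t : R) : d1 F z (t • w) = t * d1 F z w := by
  simp only [d1, Finset.mul_sum]
  exact Finset.sum_congr rfl fun i _ => by simp only [Pi.smul_apply, smul_eq_mul]; ring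

omit [Fintype α] in
theorem eval_mapσ {S : Type} [CommRing S] (σ : R →+* S) (F : MvPolynomial α R) (z : α → R) :
    eval (fun i => σ (z i)) (map σ F) = σ (eval z F) := by
  rw [eval_map, ← eval₂_id, eval₂_comp_left, RingHom.comp_id]
  rfl

theorem d1_map {S : Type} [CommRing S] (σ : R →+* S) (F : MvPolynomial α R) (z w : α → R) :
    d1 (map σ F) (fun i => σ (z i)) (fun i => σ (w i)) = σ (d1 F z w) := by
  simp only [d1, map_sum, map_mul, pderiv_map]
  refine Finset.sum_congr rfl fun i _ => ?_
  congr 1
  exact eval_mapσ σ _ z

theorem qp_map {S : Type} [CommRing S] (σ : R →+* S) (F : MvPolynomial α R) (z w : α → R) :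
    qp (map σ F) (fun i => σ (z i)) (fun i => σ (w i)) = σ (qp F z w) := by
  have h : (fun i => σ (z i)) + (fun i => σ (w i)) = fun i => σ ((z + w) i) := by
    funext i
    exact (map_add σ _ _).symm
  rw [qp, qp, map_sub, map_sub, d1_map, eval_mapσ, h, eval_mapσ]

end alg

section cont

variable {α L : Type} [Fintype α] [NontriviallyNormedField L]

omit [Fintype α] in
theorem ev_cont (F : MvPolynomial α L) {E : Type} [TopologicalSpace E] {f : E → α → L}
    (hf : Continuous f) : Continuous fun e => eval (f e) F :=
  (MvPolynomial.continuous_eval F).comp hf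

theorem d1_cont (F : MvPolynomial α L) {E : Type} [TopologicalSpace E] {f g : E → α → L}
    (hf : Continuous f) (hg : Continuous g) : Continuous fun e => d1 F (f e) (g e) :=
  continuous_finsetSum _ fun i _ => (ev_cont _ hf).mul ((continuous_apply i).comp hg)

theorem qp_cont (F : MvPolynomial α L) {E : Type} [TopologicalSpace E] {f g : E → α → L}
    (hf : Continuous f) (hg : Continuous g) : Continuous fun e => qp F (f e) (g e) :=
  ((ev_cont F (hf.add hg)).sub (ev_cont F hf)).sub (d1_cont F hf hg)

/-- the differential as a continuous linear form -/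
noncomputable def dd (F : MvPolynomial α L) (z : α → L) : (α → L) →L[L] L :=
  ∑ i, eval z (pderiv i F) • ContinuousLinearMap.proj (R := L) (φ := fun _ : α => L) i

theorem dd_apply (F : MvPolynomial α L) (z w : α → L) : dd F z w = d1 F z w := by
  simp only [dd, d1, sum_apply, smul_apply,
    ContinuousLinearMap.proj_apply, smul_eq_mul]

theorem strict (F : MvPolynomial α L) (z : α → L) :
    HasStrictFDerivAt (fun z : α → L => eval z F) (dd F z) z := by
  classical
  induction F using MvPolynomial.induction_on with
  | C a =>
    have h : dd (C a : MvPolynomial α L) z = 0 := by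
      ext w
      rw [dd_apply]
      simp [d1]
    rw [h]
    simp only [eval_C]
    exact hasStrictFDerivAt_const a z
  | add p q hp hq =>
    have h : dd (p + q) z = dd p z + dd q z := by
      ext w
      rw [add_apply, dd_apply, dd_apply, dd_apply]
      simp only [d1, map_add, add_mul, Finset.sum_add_distrib]
    rw [h]
    simp only [map_add]
    exact hp.add hq
  | mul_X p i hp =>
    have h : dd (p * X i) z = eval z p • ContinuousLinearMap.proj (R := L) (φ := fun _ : α => L) i +
        z i • dd p z := by
      ext w
      rw [add_apply, smul_apply,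
        smul_apply, dd_apply, dd_apply, ContinuousLinearMap.proj_apply]
      simp only [d1, Derivation.leibniz, smul_eq_mul, map_add, map_mul, eval_X, add_mul,
        Finset.sum_add_distrib, pderiv_X, Finset.mul_sum]
      congr 1
      · rw [Finset.sum_eq_single i]
        · simp
        · intro j _ hj
          rw [Pi.single_eq_of_ne (Ne.symm hj)]
          simp
        · intro h
          exact absurd (Finset.mem_univ i) h
      · exact Finset.sum_congr rfl fun j _ => by ring
    rw [h]
    simp only [map_mul, eval_X]
    exact hp.mul (ContinuousLinearMap.proj (R := L) (φ := fun _ : α => L) i).hasStrictFDerivAt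

/-- the derivative of `DF(z)w'` in `z` -/
noncomputable def dd2 (F : MvPolynomial α L) (z w' : α → L) : (α → L) →L[L] L :=
  ∑ j, w' j • dd (pderiv j F) z

theorem dd2_apply (F : MvPolynomial α L) (z w' w : α → L) : dd2 F z w' w = d2 F z w w' := by
  simp only [dd2, d2, sum_apply, smul_apply, smul_eq_mul,
    dd_apply, d1]

theorem strict2 (F : MvPolynomial α L) (z w' : α → L) :
    HasStrictFDerivAt (fun z : α → L => d1 F z w') (dd2 F z w') z := by
  have h : (fun z : α → L => d1 F z w') = fun z => ∑ j, w' j * eval z (pderiv j F) := by
    funext z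
    exact Finset.sum_congr rfl fun j _ => mul_comm _ _
  rw [h]
  exact HasStrictFDerivAt.fun_sum fun j _ => (strict (pderiv j F) z).const_mul (w' j)

end cont

end Pool.Agent.T6.H77.SQ
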