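import Pool.Agent.T6.H77.SQ.A

/-! Local equations (helper77). -/

set_option autoImplicit false

open Filter Topology MvPolynomial

namespace Pool.Agent.T6.H77.SQ

section

variable {α L : Type} [Fintype α] [NontriviallyNormedField L]

theorem dd_zero (F : MvPolynomial α L) (T : α → L) : d1 F T 0 = 0 := by
  simp [d1]

/-- the small points with another tangent space -/
theorem near_indep [CompleteSpace L] (F : MvPolynomial α L) {T ξ w0 η : α → L} (h0 : eval T F = 0)
    (hξ : d1 F T ξ = 0) (hη : d1 F T η = 0) (hw : d1 F T w0 ≠ 0) (h2 : d2 F T ξ η ≠ 0)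
    {N : Set (α → L)} (hN : N ∈ 𝓝 (0 : α → L)) :
    ∃ ε s : L, ε • ξ + s • w0 ∈ N ∧ eval (T + (ε • ξ + s • w0)) F = 0 ∧
      d1 F (T + (ε • ξ + s • w0)) η ≠ 0 := by
  let l : (L × L) →L[L] (α → L) := (ContinuousLinearMap.fst L L L).smulRight ξ +
    (ContinuousLinearMap.snd L L L).smulRight w0
  have hl : ∀ e : L × L, l e = e.1 • ξ + e.2 • w0 := fun e => rfl
  let g : L × L → α → L := fun e => T + l e
  have hg : HasStrictFDerivAt g l (0 : L × L) := l.hasStrictFDerivAt.const_add T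
  have hg0 : g 0 = T := by
    change T + l 0 = T
    rw [map_zero, add_zero]
  let Φ : L × L → L × L := fun e => (eval (g e) F, d1 F (g e) η)
  let Φ' : (L × L) →L[L] (L × L) := ((dd F T).comp l).prod ((dd2 F T η).comp l)
  have hΦ : HasStrictFDerivAt Φ Φ' 0 := by
    have k1 := strict F T
    have k2 := strict2 F T η
    rw [← hg0] at k1 k2
    have m1 := HasStrictFDerivAt.comp (0 : L × L) k1 hg
    have m2 := HasStrictFDerivAt.comp (0 : L × L) k2 hg
    have m3 := m1.prodMk m2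
    rw [hg0] at m3
    exact m3
  have hsurj : Φ'.range = ⊤ := by
    rw [eq_top_iff]
    rintro ⟨r1, r2⟩ -
    let s := r1 / d1 F T w0
    let ε := (r2 - s * d2 F T w0 η) / d2 F T ξ η
    refine ⟨(ε, s), ?_⟩
    change (dd F T (l (ε, s)), dd2 F T η (l (ε, s))) = (r1, r2)
    rw [hl]
    simp only [map_add, map_smul, dd_apply, dd2_apply, smul_eq_mul, hξ, mul_zero, zero_add]
    refine Prod.ext ?_ ?_
    · exact div_mul_cancel₀ _ hw
    · change ε * d2 F T ξ η + s * d2 F T w0 η = r2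
      rw [show ε * d2 F T ξ η = r2 - s * d2 F T w0 η from div_mul_cancel₀ _ h2]
      ring
  have hmap := hΦ.map_nhds_eq_of_surj hsurj
  have hΦ0 : Φ 0 = (0, 0) := by
    change (eval (g 0) F, d1 F (g 0) η) = (0, 0)
    rw [hg0, h0, hη]
  rw [hΦ0] at hmap
  have hW : {e : L × L | l e ∈ N} ∈ 𝓝 (0 : L × L) := by
    apply l.continuous.continuousAt
    rw [map_zero]
    exact hN
  have hIm : Φ '' {e : L × L | l e ∈ N} ∈ 𝓝 ((0, 0) : L × L) := by
    rw [← hmap]
    exact image_mem_map hW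
  have hc : Continuous fun δ : L => ((0, δ) : L × L) := by fun_prop
  have hev : ∀ᶠ δ : L in 𝓝 0, ((0, δ) : L × L) ∈ Φ '' {e : L × L | l e ∈ N} :=
    hc.continuousAt hIm
  obtain ⟨δ, hδ, hne⟩ := ((hev.filter_mono nhdsWithin_le_nhds).and
    (self_mem_nhdsWithin (a := (0 : L)) (s := ({0} : Set L)ᶜ))).exists
  obtain ⟨⟨ε, s⟩, he, heq⟩ := hδ
  refine ⟨ε, s, he, congrArg Prod.fst heq, ?_⟩
  have h3 : d1 F (T + (ε • ξ + s • w0)) η = δ := congrArg Prod.snd heq
  rw [h3]
  exact hne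

/-- **The local system of equations.** -/
theorem solve3 [CompleteSpace L] (F : MvPolynomial α L) {T w' v0 η w0 : α → L}
    (h0 : eval T F = 0) (h1 : eval (T + w') F = 0) (hv : d1 F T v0 ≠ 0) (hη : d1 F T η = 0)
    (hη' : d1 F (T + w') η ≠ 0) (hw : d1 F (T + w') w0 ≠ 0)
    {N : Set (α → L)} (hN : N ∈ 𝓝 (0 : α → L)) :
    ∀ᶠ S : (α → L) × (α → L) in 𝓝 (T, 0), ∃ a b c : L,
      a • v0 + b • η ∈ N ∧ c • w0 ∈ N ∧ eval (S.1 + (a • v0 + b • η)) F = 0 ∧
      eval (S.1 + (a • v0 + b • η) + (w' + c • w0)) F = 0 ∧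
      eval (S.1 + (w' + c • w0) + S.2) F = 0 := by
  let E := (L × L × L) × ((α → L) × (α → L))
  let pa : E →L[L] L := (ContinuousLinearMap.fst L _ _).comp (ContinuousLinearMap.fst L _ _)
  let pb : E →L[L] L := (ContinuousLinearMap.fst L _ _).comp
    ((ContinuousLinearMap.snd L _ _).comp (ContinuousLinearMap.fst L _ _))
  let pc : E →L[L] L := (ContinuousLinearMap.snd L _ _).comp
    ((ContinuousLinearMap.snd L _ _).comp (ContinuousLinearMap.fst L _ _))
  let pS : E →L[L] ((α → L) × (α → L)) := ContinuousLinearMap.snd L _ _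
  let pz : E →L[L] (α → L) := (ContinuousLinearMap.fst L _ _).comp pS
  let pv : E →L[L] (α → L) := (ContinuousLinearMap.snd L _ _).comp pS
  let lv : E →L[L] (α → L) := pa.smulRight v0 + pb.smulRight η
  let lw : E →L[L] (α → L) := pc.smulRight w0
  let b0 : E := ((0, 0, 0), (T, 0))
  let p : E →L[L] (α → L) := pz + lv
  let q : E →L[L] (α → L) := pz + lv + lw
  let r : E →L[L] (α → L) := pz + lw + pv
  have hp0 : p b0 = T := by
    change T + ((0 : L) • v0 + (0 : L) • η) = T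
    simp
  have hq0 : q b0 + w' = T + w' := by
    change T + ((0 : L) • v0 + (0 : L) • η) + (0 : L) • w0 + w' = T + w'
    simp
  have hr0 : r b0 + w' = T + w' := by
    change T + (0 : L) • w0 + 0 + w' = T + w'
    simp
  let H : E → (L × L × L) × ((α → L) × (α → L)) := fun e =>
    ((eval (p e) F, eval (q e + w') F, eval (r e + w') F), pS e)
  let H' : E →L[L] (L × L × L) × ((α → L) × (α → L)) :=
    (((dd F T).comp p).prod (((dd F (T + w')).comp q).prod ((dd F (T + w')).comp r))).prod pS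
  have hH : HasStrictFDerivAt H H' b0 := by
    have k1 := strict F T
    have k2 := strict F (T + w')
    have k3 := k2
    rw [← hp0] at k1
    rw [← hq0] at k2
    rw [← hr0] at k3
    have m1 := HasStrictFDerivAt.comp b0 k1 p.hasStrictFDerivAt
    have m2 := HasStrictFDerivAt.comp (f := fun e : E => q e + w') b0 k2
      (q.hasStrictFDerivAt.add_const w')
    have m3 := HasStrictFDerivAt.comp (f := fun e : E => r e + w') b0 k3
      (r.hasStrictFDerivAt.add_const w')
    rw [hp0] at m1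
    rw [hq0] at m2
    rw [hr0] at m3
    exact (m1.prodMk (m2.prodMk m3)).prodMk pS.hasStrictFDerivAt
  have hsurj : H'.range = ⊤ := by
    rw [eq_top_iff]
    rintro ⟨⟨r1, r2, r3⟩, ⟨z, v⟩⟩ -
    set A := d1 F T v0 with hA
    set B := d1 F (T + w') η with hB
    set C := d1 F (T + w') w0 with hC
    let a := (r1 - d1 F T z) / A
    let c := (r3 - d1 F (T + w') z - d1 F (T + w') v) / C
    let b := (r2 - d1 F (T + w') z - a * d1 F (T + w') v0 - c * C) / B
    have ea : a * A = r1 - d1 F T z := div_mul_cancel₀ _ hv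
    have ec : c * C = r3 - d1 F (T + w') z - d1 F (T + w') v := div_mul_cancel₀ _ hw
    have eb : b * B = r2 - d1 F (T + w') z - a * d1 F (T + w') v0 - c * C :=
      div_mul_cancel₀ _ hη'
    refine ⟨((a, b, c), (z, v)), ?_⟩
    change ((dd F T (z + (a • v0 + b • η)), dd F (T + w') (z + (a • v0 + b • η) + c • w0),
      dd F (T + w') (z + c • w0 + v)), (z, v)) = ((r1, r2, r3), (z, v))
    simp only [map_add, map_smul, dd_apply, smul_eq_mul, hη, mul_zero, add_zero]
    rw [← hA, ← hB, ← hC, ea, eb]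
    refine Prod.ext (Prod.ext ?_ (Prod.ext ?_ ?_)) rfl
    · change d1 F T z + (r1 - d1 F T z) = r1
      ring
    · change d1 F (T + w') z + (a * d1 F (T + w') v0 + (r2 - d1 F (T + w') z -
        a * d1 F (T + w') v0 - c * C)) + c * C = r2
      ring
    · change d1 F (T + w') z + c * C + d1 F (T + w') v = r3
      rw [ec]
      ring
  have hmap := hH.map_nhds_eq_of_surj hsurj
  have hHb : H b0 = ((0, 0, 0), (T, 0)) := by
    change ((eval (p b0) F, eval (q b0 + w') F, eval (r b0 + w') F), pS b0) = _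
    rw [hp0, hq0, hr0, h0, h1]
    rfl
  rw [hHb] at hmap
  have hW : {e : E | lv e ∈ N ∧ lw e ∈ N} ∈ 𝓝 b0 := by
    refine Filter.inter_mem ?_ ?_
    · apply lv.continuous.continuousAt
      have : lv b0 = 0 := by
        change (0 : L) • v0 + (0 : L) • η = 0
        simp
      rw [this]
      exact hN
    · apply lw.continuous.continuousAt
      have : lw b0 = 0 := by
        change (0 : L) • w0 = 0
        simp
      rw [this]
      exact hN
  have hIm : H '' {e : E | lv e ∈ N ∧ lw e ∈ N} ∈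
      𝓝 (((0, 0, 0), (T, 0)) : (L × L × L) × ((α → L) × (α → L))) := by
    rw [← hmap]
    exact image_mem_map hW
  have hcont : Continuous fun S : (α → L) × (α → L) =>
      (((0, 0, 0), S) : (L × L × L) × ((α → L) × (α → L))) := by fun_prop
  have hev := hcont.continuousAt (x := (T, (0 : α → L))) hIm
  filter_upwards [hev] with S hS
  obtain ⟨⟨⟨a, b, c⟩, S'⟩, ⟨n1, n2⟩, heq⟩ := hS
  have k1 : S' = S := congrArg Prod.snd heq
  subst k1
  have k2 : eval (S'.1 + (a • v0 + b • η)) F = 0 := congrArg (fun z => z.1.1) heq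
  have k3 : eval (S'.1 + (a • v0 + b • η) + c • w0 + w') F = 0 :=
    congrArg (fun z => z.1.2.1) heq
  have k4 : eval (S'.1 + c • w0 + S'.2 + w') F = 0 := congrArg (fun z => z.1.2.2) heq
  refine ⟨a, b, c, n1, n2, k2, ?_, ?_⟩
  · rw [← k3]
    congr 2
    abel
  · rw [← k4]
    congr 2
    abel

/-- one equation -/
theorem solve1 [CompleteSpace L] (F : MvPolynomial α L) {T ζ : α → L} (h0 : eval T F = 0)
    (hζ : d1 F T ζ ≠ 0) {N : Set (α → L)} (hN : N ∈ 𝓝 (0 : α → L)) :
    ∀ᶠ z : α → L in 𝓝 T, ∃ s : L, s • ζ ∈ N ∧ eval (z + s • ζ) F = 0 := by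
  let E := L × (α → L)
  let ps : E →L[L] L := ContinuousLinearMap.fst L _ _
  let pz : E →L[L] (α → L) := ContinuousLinearMap.snd L _ _
  let lz : E →L[L] (α → L) := ps.smulRight ζ
  let p : E →L[L] (α → L) := pz + lz
  let b0 : E := (0, T)
  have hp0 : p b0 = T := by
    change T + (0 : L) • ζ = T
    simp
  let H : E → L × (α → L) := fun e => (eval (p e) F, pz e)
  let H' : E →L[L] L × (α → L) := ((dd F T).comp p).prod pz
  have hH : HasStrictFDerivAt H H' b0 := by
    have k1 := strict F T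
    rw [← hp0] at k1
    have m1 := HasStrictFDerivAt.comp b0 k1 p.hasStrictFDerivAt
    rw [hp0] at m1
    exact m1.prodMk pz.hasStrictFDerivAt
  have hsurj : H'.range = ⊤ := by
    rw [eq_top_iff]
    rintro ⟨r, z⟩ -
    refine ⟨((r - d1 F T z) / d1 F T ζ, z), ?_⟩
    change (dd F T (z + ((r - d1 F T z) / d1 F T ζ) • ζ), z) = (r, z)
    simp only [map_add, map_smul, dd_apply, smul_eq_mul]
    rw [div_mul_cancel₀ _ hζ]
    refine Prod.ext ?_ rfl
    change d1 F T z + (r - d1 F T z) = r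
    ring
  have hmap := hH.map_nhds_eq_of_surj hsurj
  have hHb : H b0 = (0, T) := by
    change (eval (p b0) F, pz b0) = _
    rw [hp0, h0]
    rfl
  rw [hHb] at hmap
  have hW : {e : E | lz e ∈ N} ∈ 𝓝 b0 := by
    apply lz.continuous.continuousAt
    have : lz b0 = 0 := by
      change (0 : L) • ζ = 0
      simp
    rw [this]
    exact hN
  have hIm : H '' {e : E | lz e ∈ N} ∈ 𝓝 ((0, T) : L × (α → L)) := by
    rw [← hmap]
    exact image_mem_map hW
  have hcont : Continuous fun z : α → L => ((0, z) : L × (α → L)) := by fun_prop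
  have hev := hcont.continuousAt (x := T) hIm
  filter_upwards [hev] with z hz
  obtain ⟨⟨s, z'⟩, n1, heq⟩ := hz
  have k1 : z' = z := congrArg Prod.snd heq
  subst k1
  exact ⟨s, n1, congrArg Prod.fst heq⟩

/-- **The local step.** -/
theorem step_local [CompleteSpace L] (F : MvPolynomial α L) {T : α → L} (h0 : eval T F = 0)
    {V W : Submodule L (α → L)} {v0 w0 ξ η : α → L} (mv : v0 ∈ V) (mw : w0 ∈ W) (mξ : ξ ∈ W)
    (mη : η ∈ V) (hv : d1 F T v0 ≠ 0) (hw : d1 F T w0 ≠ 0) (hξ : d1 F T ξ = 0)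
    (hη : d1 F T η = 0) (h2 : d2 F T ξ η ≠ 0) {N : Set (α → L)} (hN : N ∈ 𝓝 (0 : α → L)) :
    ∀ᶠ S : (α → L) × (α → L) in 𝓝 (T, 0), ∃ v ∈ V, ∃ w ∈ W, v ∈ N ∧ w ∈ N ∧
      eval (S.1 + v) F = 0 ∧ eval (S.1 + v + w) F = 0 ∧ eval (S.1 + w + S.2) F = 0 := by
  have hadd : Continuous fun e : (α → L) × (α → L) => e.1 + e.2 := by fun_prop
  have hN2 : ∀ᶠ e : (α → L) × (α → L) in 𝓝 ((0 : α → L), (0 : α → L)), e.1 + e.2 ∈ N := by
    apply hadd.continuousAt
    change N ∈ 𝓝 ((0 : α → L) + 0)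
    rw [add_zero]
    exact hN
  rw [nhds_prod_eq, Filter.eventually_prod_iff] at hN2
  obtain ⟨p1, hp1, p2, hp2, hp⟩ := hN2
  have hc : Continuous fun w : α → L => d1 F (T + w) w0 :=
    d1_cont F (by fun_prop) continuous_const
  have hev : ∀ᶠ w : α → L in 𝓝 0, d1 F (T + w) w0 ≠ 0 := by
    refine hc.continuousAt.eventually_ne ?_
    change d1 F (T + 0) w0 ≠ 0
    rw [add_zero]
    exact hw
  obtain ⟨ε, s, ⟨n1, n2⟩, e1, e2⟩ := near_indep F h0 hξ hη hw h2 (N := {w | p1 w ∧
    d1 F (T + w) w0 ≠ 0}) (hp1.and hev)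
  have hs := solve3 F (w' := ε • ξ + s • w0) h0 e1 hv hη e2 n2 (N := N ∩ {w | p2 w})
    (Filter.inter_mem hN hp2)
  filter_upwards [hs] with S hS
  obtain ⟨a, b, c, m1, m2, k1, k2, k3⟩ := hS
  exact ⟨a • v0 + b • η, V.add_mem (V.smul_mem _ mv) (V.smul_mem _ mη),
    (ε • ξ + s • w0) + c • w0, W.add_mem (W.add_mem (W.smul_mem _ mξ) (W.smul_mem _ mw))
      (W.smul_mem _ mw), m1.1, hp n1 m2.2, k1, k2, k3⟩

/-- small vectors of a sum of subspaces are sums of small vectors -/
theorem split (V W : Submodule L (α → L)) {N : Set (α → L)} (hN : N ∈ 𝓝 (0 : α → L)) :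
    ∀ᶠ u : α → L in 𝓝 0, u ∈ W ⊔ V → ∃ w ∈ W, ∃ v ∈ V, w ∈ N ∧ v ∈ N ∧ w + v = u := by
  let f : (W × V) →ₗ[L] (α → L) := W.subtype.coprod V.subtype
  have hf : LinearMap.range f = W ⊔ V := by
    rw [LinearMap.range_coprod, Submodule.range_subtype, Submodule.range_subtype]
  obtain ⟨g, hg⟩ := f.rangeRestrict.exists_rightInverse_of_surjective f.range_rangeRestrict
  obtain ⟨g', hg'⟩ := g.exists_extend
  let k1 : (α → L) →ₗ[L] (α → L) := W.subtype ∘ₗ LinearMap.fst L W V ∘ₗ g'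
  let k2 : (α → L) →ₗ[L] (α → L) := V.subtype ∘ₗ LinearMap.snd L W V ∘ₗ g'
  have c1 : Continuous k1 := LinearMap.continuous_on_pi k1
  have c2 : Continuous k2 := LinearMap.continuous_on_pi k2
  have e1 : ∀ᶠ u : α → L in 𝓝 0, k1 u ∈ N := by
    apply c1.continuousAt
    rw [map_zero]
    exact hN
  have e2 : ∀ᶠ u : α → L in 𝓝 0, k2 u ∈ N := by
    apply c2.continuousAt
    rw [map_zero]
    exact hN
  filter_upwards [e1, e2] with u h1 h2 hu
  refine ⟨k1 u, (LinearMap.fst L W V (g' u)).2, k2 u, (LinearMap.snd L W V (g' u)).2, h1, h2, ?_⟩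
  rw [← hf] at hu
  have h3 : g' u = g ⟨u, hu⟩ := by
    rw [← hg']
    rfl
  have h4 : f (g ⟨u, hu⟩) = u := by
    have := congrArg (fun φ => (φ ⟨u, hu⟩ : LinearMap.range f)) hg
    exact congrArg Subtype.val this
  change ((g' u).1 : α → L) + ((g' u).2 : α → L) = u
  rw [h3]
  exact h4

end

end Pool.Agent.T6.H77.SQ
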