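import Pool.Agent.T6.H77.SQ.B

/-! The closure of the rational points of a hypersurface is stable under the moves along its
quadrics (helper77). -/

set_option autoImplicit false

open Filter Topology MvPolynomial

namespace Pool.Agent.T6.H77.SQ

/-- The set of the `K`-points of `F = 0` in the product of the sets of the `L v`-points. -/
def pts {α K : Type} [Field K] (F : MvPolynomial α K) {ι : Type} {L : ι → Type}
    [∀ v, Field (L v)] (σ : ∀ v, K →+* L v) : Set (∀ v, α → L v) :=
  {S | ∃ z : α → K, eval z F = 0 ∧ S = fun v i => σ v (z i)}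

/-- the subspace over the extension field -/
def ext {α K L : Type} [Field K] [Field L] (σ : K →+* L) (V : Submodule K (α → K)) :
    Submodule L (α → L) :=
  Submodule.span L ((fun (w : α → K) (i : α) => σ (w i)) '' V)

/-- `F` has degree at most two along the translates of `V` -/
def Quad {α K : Type} [Fintype α] [Field K] (F : MvPolynomial α K) (V : Submodule K (α → K)) :
    Prop :=
  ∀ z, ∀ w ∈ V, ∀ t : K, eval (z + t • w) F = eval z F + t * d1 F z w + t ^ 2 * qp F z w

/-- the second point of the line -/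
noncomputable def refl {α L : Type} [Fintype α] [Field L] (f : MvPolynomial α L) (u z : α → L) :
    α → L :=
  z + (-d1 f z u / qp f z u) • u

theorem quad_closed {α L : Type} [Fintype α] [NontriviallyNormedField L] (f : MvPolynomial α L) :
    IsClosed {e : (α → L) × (α → L) × L | eval (e.1 + e.2.2 • e.2.1) f = eval e.1 f +
      e.2.2 * d1 f e.1 e.2.1 + e.2.2 ^ 2 * qp f e.1 e.2.1} := by
  have c0 : Continuous fun e : (α → L) × (α → L) × L => e.1 + e.2.2 • e.2.1 := by fun_prop
  have c1 : Continuous fun e : (α → L) × (α → L) × L => e.1 := by fun_prop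
  have c2 : Continuous fun e : (α → L) × (α → L) × L => e.2.1 := by fun_prop
  have c3 : Continuous fun e : (α → L) × (α → L) × L => e.2.2 := by fun_prop
  have a0 := ev_cont f c0
  have a1 := ev_cont f c1
  have a2 := d1_cont f c1 c2
  have a3 := qp_cont f c1 c2
  exact isClosed_eq a0 ((a1.add (c3.mul a2)).add ((c3.pow 2).mul a3))

section

variable {α K : Type} [Fintype α] [Field K] {ι : Type} {L : ι → Type}
  [∀ v, NontriviallyNormedField (L v)] {σ : ∀ v, K →+* L v}

/-- the `K`-points of a subspace -/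
def kpts (σ : ∀ v, K →+* L v) (V : Submodule K (α → K)) : Set (∀ v, α → L v) :=
  {S | ∃ a ∈ V, S = fun v i => σ v (a i)}

/-- **The `K`-points of a subspace are dense in it.** -/
theorem dens (hσ : DenseRange fun (a : K) (v : ι) => σ v a) (V : Submodule K (α → K))
    (w : ∀ v, α → L v) (hw : ∀ v, w v ∈ ext (σ v) V) : w ∈ closure (kpts σ V) := by
  classical
  let b := Module.finBasis K V
  have hspan : ∀ v, ext (σ v) V ≤
      Submodule.span (L v) (Set.range fun (j : Fin (Module.finrank K V)) (i : α) =>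
        σ v ((b j : α → K) i)) := by
    intro v
    refine Submodule.span_le.2 ?_
    rintro _ ⟨a, ha, rfl⟩
    have h := b.sum_repr ⟨a, ha⟩
    have h2 : a = ∑ j, b.repr ⟨a, ha⟩ j • (b j : α → K) := by
      have h3 := congrArg (Submodule.subtype V) h
      rw [map_sum] at h3
      exact h3.symm
    have h4 : (fun i => σ v (a i)) = ∑ j, σ v (b.repr ⟨a, ha⟩ j) • fun i => σ v ((b j : α → K) i) := by
      funext i
      conv_lhs => rw [h2]
      simp only [Finset.sum_apply, Pi.smul_apply, smul_eq_mul, map_sum, map_mul]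
    change (fun i => σ v (a i)) ∈ _
    rw [h4]
    exact Submodule.sum_mem _ fun j _ => Submodule.smul_mem _ _ (Submodule.subset_span ⟨j, rfl⟩)
  choose c hc using fun v => (Submodule.mem_span_range_iff_exists_fun (L v)).1 (hspan v (hw v))
  have h1 : DenseRange (Pi.map fun (_ : Fin (Module.finrank K V)) (a : K) (v : ι) => σ v a) :=
    DenseRange.piMap fun _ => hσ
  let Φ : (Fin (Module.finrank K V) → ∀ v, L v) → ∀ v, α → L v := fun c v =>
    ∑ j, c j v • fun i => σ v ((b j : α → K) i)
  have hΦ : Continuous Φ := by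
    refine continuous_pi fun v => ?_
    refine continuous_finsetSum _ fun j _ => ?_
    have cj : Continuous fun c : Fin (Module.finrank K V) → ∀ v, L v => c j v := by fun_prop
    exact cj.smul continuous_const
  have h2 : w = Φ fun j v => c v j := by
    funext v
    exact (hc v).symm
  rw [h2]
  refine map_mem_closure hΦ (h1 fun j v => c v j) ?_
  rintro _ ⟨a, rfl⟩
  refine ⟨∑ j, a j • (b j : α → K), V.sum_mem fun j _ => V.smul_mem _ (b j).2, ?_⟩
  funext v i
  change (∑ j, σ v (a j) • fun i => σ v ((b j : α → K) i)) i = σ v ((∑ j, a j • (b j : α → K)) i)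
  simp only [Finset.sum_apply, Pi.smul_apply, smul_eq_mul, map_sum, map_mul]

/-- **The restriction to lines over the local field.** -/
theorem quadL (hσ : DenseRange fun (a : K) (v : ι) => σ v a) {F : MvPolynomial α K}
    {V : Submodule K (α → K)} (hV : Quad F V) (v : ι) (z w : α → L v) (hw : w ∈ ext (σ v) V)
    (t : L v) : eval (z + t • w) (map (σ v) F) = eval z (map (σ v) F) +
      t * d1 (map (σ v) F) z w + t ^ 2 * qp (map (σ v) F) z w := by
  classical
  have hs : Dense (Set.range (σ v)) := by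
    have h : Function.Surjective fun x : ∀ v, L v => x v := fun x => ⟨Pi.single v x, by simp⟩
    exact h.denseRange.comp hσ (continuous_apply v)
  have hz : z ∈ closure {z : α → L v | ∃ a : α → K, z = fun i => σ v (a i)} := by
    have h1 : DenseRange (Pi.map fun (_ : α) (a : K) => σ v a) := DenseRange.piMap fun _ => hs
    refine closure_mono ?_ (h1 z)
    rintro _ ⟨a, rfl⟩
    exact ⟨a, rfl⟩
  have hw' : w ∈ closure {w : α → L v | ∃ a ∈ V, w = fun i => σ v (a i)} := by
    have h := dens hσ V (Pi.single v w) fun v' => by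
      by_cases h : v' = v
      · subst h
        rw [Pi.single_eq_same]
        exact hw
      · rw [Pi.single_eq_of_ne h]
        exact Submodule.zero_mem _
    have h2 := map_mem_closure (continuous_apply v) h
      (t := {w : α → L v | ∃ a ∈ V, w = fun i => σ v (a i)}) (by
        rintro _ ⟨a, ha, rfl⟩
        exact ⟨a, ha, rfl⟩)
    rwa [Pi.single_eq_same] at h2
  have ht : t ∈ closure (Set.range (σ v)) := hs t
  have hcl := quad_closed (map (σ v) F)
  have hmem : ((z, w, t) : (α → L v) × (α → L v) × L v) ∈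
      closure ({z : α → L v | ∃ a : α → K, z = fun i => σ v (a i)} ×ˢ
        ({w : α → L v | ∃ a ∈ V, w = fun i => σ v (a i)} ×ˢ Set.range (σ v))) := by
    rw [closure_prod_eq, closure_prod_eq]
    exact ⟨hz, hw', ht⟩
  have hsub : ({z : α → L v | ∃ a : α → K, z = fun i => σ v (a i)} ×ˢ
        ({w : α → L v | ∃ a ∈ V, w = fun i => σ v (a i)} ×ˢ Set.range (σ v))) ⊆
      {e : (α → L v) × (α → L v) × L v | eval (e.1 + e.2.2 • e.2.1) (map (σ v) F) =
        eval e.1 (map (σ v) F) + e.2.2 * d1 (map (σ v) F) e.1 e.2.1 +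
          e.2.2 ^ 2 * qp (map (σ v) F) e.1 e.2.1} := by
    rintro ⟨_, _, _⟩ ⟨⟨a, rfl⟩, ⟨b, hb, rfl⟩, ⟨t, rfl⟩⟩
    have h := congrArg (σ v) (hV a b hb t)
    rw [map_add, map_add, map_mul, map_mul, map_pow, ← eval_mapσ, ← eval_mapσ, ← d1_map,
      ← qp_map] at h
    have e : ((fun i => σ v (a i)) + σ v t • fun i => σ v (b i)) =
        fun i => σ v ((a + t • b) i) := by
      funext i
      simp
    change eval ((fun i => σ v (a i)) + σ v t • fun i => σ v (b i)) (map (σ v) F) = _
    rw [e]
    exact h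
  have key := closure_minimal hsub hcl hmem
  rw [Set.mem_ofPred_eq] at key
  exact key

end

section line

variable {α L : Type} [Fintype α] [NontriviallyNormedField L]

theorem lineL {f : MvPolynomial α L} {w : α → L}
    (hq : ∀ (z : α → L) (t : L), eval (z + t • w) f = eval z f + t * d1 f z w + t ^ 2 * qp f z w)
    (z : α → L) (s : L) : d1 f (z + s • w) w = d1 f z w + 2 * s * qp f z w ∧
      qp f (z + s • w) w = qp f z w := by
  have h : ∀ t : L, t * (d1 f (z + s • w) w - d1 f z w - 2 * s * qp f z w) +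
      t ^ 2 * (qp f (z + s • w) w - qp f z w) = 0 := by
    intro t
    have h1 := hq (z + s • w) t
    have h2 := hq z (s + t)
    have h3 := hq z s
    rw [show z + (s + t) • w = z + s • w + t • w by rw [add_smul, add_assoc]] at h2
    rw [h1, h3] at h2
    linear_combination h2
  obtain ⟨τ, hτ⟩ := NormedField.exists_one_lt_norm L
  have t0 : τ ≠ 0 := by
    rintro rfl
    rw [norm_zero] at hτ
    linarith
  have t1 : τ ≠ 1 := by
    rintro rfl
    rw [norm_one] at hτ
    linarith
  have e1 := h 1
  have e2 := h τ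
  have e3 : τ * (τ - 1) * (qp f (z + s • w) w - qp f z w) = 0 := by
    linear_combination e2 - τ * e1
  have e4 : qp f (z + s • w) w - qp f z w = 0 :=
    (mul_eq_zero.1 e3).resolve_left (mul_ne_zero t0 (sub_ne_zero.2 t1))
  refine ⟨?_, sub_eq_zero.1 e4⟩
  rw [e4] at e1
  linear_combination e1

theorem qp_smul {f : MvPolynomial α L} {w : α → L}
    (hq : ∀ (z : α → L) (t : L), eval (z + t • w) f = eval z f + t * d1 f z w + t ^ 2 * qp f z w)
    (z : α → L) (s : L) : qp f z (s • w) = s ^ 2 * qp f z w := by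
  rw [qp, hq, d1_smul]
  ring

theorem refl_on {f : MvPolynomial α L} {w : α → L}
    (hq : ∀ (z : α → L) (t : L), eval (z + t • w) f = eval z f + t * d1 f z w + t ^ 2 * qp f z w)
    {z : α → L} (h0 : eval z f = 0) (hw : qp f z w ≠ 0) : eval (refl f w z) f = 0 := by
  rw [refl, hq, h0]
  field_simp
  ring

theorem refl_refl {f : MvPolynomial α L} {w : α → L}
    (hq : ∀ (z : α → L) (t : L), eval (z + t • w) f = eval z f + t * d1 f z w + t ^ 2 * qp f z w)
    {z : α → L} (hw : qp f z w ≠ 0) : refl f w (refl f w z) = z := by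
  have h := lineL hq z (-d1 f z w / qp f z w)
  rw [refl, refl, h.1, h.2, add_assoc, ← add_smul]
  have : -d1 f z w / qp f z w + -(d1 f z w + 2 * (-d1 f z w / qp f z w) * qp f z w) /
      qp f z w = 0 := by
    field_simp
    ring
  rw [this, zero_smul, add_zero]

theorem refl_qp {f : MvPolynomial α L} {w : α → L}
    (hq : ∀ (z : α → L) (t : L), eval (z + t • w) f = eval z f + t * d1 f z w + t ^ 2 * qp f z w)
    (z : α → L) : qp f (refl f w z) w = qp f z w :=
  (lineL hq z _).2

theorem refl_contAt (f : MvPolynomial α L) {z w : α → L} (hw : qp f z w ≠ 0) :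
    ContinuousAt (fun q : (α → L) × (α → L) => refl f q.1 q.2) (w, z) := by
  have c1 : Continuous fun q : (α → L) × (α → L) => q.1 := continuous_fst
  have c2 : Continuous fun q : (α → L) × (α → L) => q.2 := continuous_snd
  have h1 : ContinuousAt (fun q : (α → L) × (α → L) => -d1 f q.2 q.1 / qp f q.2 q.1) (w, z) :=
    (d1_cont f c2 c1).neg.continuousAt.div (qp_cont f c2 c1).continuousAt hw
  have h2 : ContinuousAt (fun q : (α → L) × (α → L) =>
      (-d1 f q.2 q.1 / qp f q.2 q.1) • q.1) (w, z) := h1.smul c1.continuousAt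
  exact c2.continuousAt.add h2

/-- a point of the line is the second point -/
theorem refl_eq {f : MvPolynomial α L} {z w : α → L} (h0 : eval z f = 0) (h1 : eval (z + w) f = 0)
    (hw : qp f z w ≠ 0) : refl f w z = z + w := by
  have h : -d1 f z w = qp f z w := by
    rw [qp, h0, h1]
    ring
  rw [refl, h, div_self hw, one_smul]

end line

section

variable {α K : Type} [Fintype α] [Field K] {ι : Type} {L : ι → Type}
  [∀ v, NontriviallyNormedField (L v)] {σ : ∀ v, K →+* L v} {F : MvPolynomial α K}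

omit [Fintype α] in
theorem on_closure {T : ∀ v, α → L v} (hT : T ∈ closure (pts F σ)) (v : ι) :
    eval (T v) (map (σ v) F) = 0 := by
  have h1 : IsClosed {T : ∀ v, α → L v | eval (T v) (map (σ v) F) = 0} :=
    isClosed_eq (ev_cont _ (continuous_apply v)) continuous_const
  refine closure_minimal ?_ h1 hT
  rintro _ ⟨z, hz, rfl⟩
  change eval (fun i => σ v (z i)) (map (σ v) F) = 0
  rw [eval_mapσ, hz, map_zero]

/-- **Moves.** -/
theorem mvd (hσ : DenseRange fun (a : K) (v : ι) => σ v a) {V : Submodule K (α → K)}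
    (hV : Quad F V) {P : ∀ v, α → L v} (hP : P ∈ closure (pts F σ)) (w : ∀ v, α → L v)
    (hw : ∀ v, w v ∈ ext (σ v) V) (hq : ∀ v, qp (map (σ v) F) (P v) (w v) ≠ 0) :
    (fun v => refl (map (σ v) F) (w v) (P v)) ∈ closure (pts F σ) := by
  classical
  rcases isEmpty_or_nonempty ι with hι | ⟨⟨v₀⟩⟩
  · have : (fun v => refl (map (σ v) F) (w v) (P v)) = P := Subsingleton.elim _ _
    rwa [this]
  let Ψ : (∀ v, α → L v) × (∀ v, α → L v) → (∀ v, α → L v) := fun q v =>
    refl (map (σ v) F) (q.1 v) (q.2 v)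
  have c1 : ∀ v, Continuous fun q : (∀ v, α → L v) × (∀ v, α → L v) => q.1 v := fun v => by
    fun_prop
  have c2 : ∀ v, Continuous fun q : (∀ v, α → L v) × (∀ v, α → L v) => q.2 v := fun v => by
    fun_prop
  have hΨc : ContinuousAt Ψ (w, P) := by
    refine continuousAt_pi.2 fun v => ?_
    have h1 := refl_contAt (map (σ v) F) (hq v)
    have h2 : ContinuousAt (fun q : (∀ v, α → L v) × (∀ v, α → L v) => (q.1 v, q.2 v)) (w, P) :=
      ((c1 v).prodMk (c2 v)).continuousAt
    exact ContinuousAt.comp (g := fun q : (α → L v) × (α → L v) => refl (map (σ v) F) q.1 q.2)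
      (f := fun q : (∀ v, α → L v) × (∀ v, α → L v) => (q.1 v, q.2 v)) h1 h2
  rw [mem_closure_iff_nhds]
  intro O hO
  have hW : Ψ ⁻¹' O ∩ {q | qp (map (σ v₀) F) (q.2 v₀) (q.1 v₀) ≠ 0} ∈ 𝓝 (w, P) :=
    Filter.inter_mem (hΨc hO)
      ((qp_cont _ (c2 v₀) (c1 v₀)).continuousAt.eventually_ne (hq v₀))
  have hcl : (w, P) ∈ closure (kpts σ V ×ˢ pts F σ) := by
    rw [closure_prod_eq]
    exact ⟨dens hσ V w hw, hP⟩
  obtain ⟨⟨_, _⟩, ⟨hq1, hq2⟩, ⟨a, ha, rfl⟩, ⟨z, hz, rfl⟩⟩ := mem_closure_iff_nhds.1 hcl _ hW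
  have hqa : ∀ v, qp (map (σ v) F) (fun i => σ v (z i)) (fun i => σ v (a i)) =
      σ v (qp F z a) := fun v => qp_map (σ v) F z a
  have hda : ∀ v, d1 (map (σ v) F) (fun i => σ v (z i)) (fun i => σ v (a i)) =
      σ v (d1 F z a) := fun v => d1_map (σ v) F z a
  have hne : qp F z a ≠ 0 := by
    intro h
    apply hq2
    change qp (map (σ v₀) F) (fun i => σ v₀ (z i)) (fun i => σ v₀ (a i)) = 0
    rw [hqa, h, map_zero]
  refine ⟨_, hq1, z + (-d1 F z a / qp F z a) • a, ?_, ?_⟩
  · rw [hV z a ha, hz]
    field_simp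
    ring
  · funext v i
    change σ v (z i) + (-d1 (map (σ v) F) (fun i => σ v (z i)) (fun i => σ v (a i)) /
      qp (map (σ v) F) (fun i => σ v (z i)) (fun i => σ v (a i))) * σ v (a i) =
        σ v (z i + (-d1 F z a / qp F z a) * a i)
    rw [hqa, hda, map_add, map_mul, map_div₀, map_neg]

end

end Pool.Agent.T6.H77.SQ
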