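import Pool.Agent.T6.H77.SQ.C

/-! Moves to a given point (helper77). -/

set_option autoImplicit false

open Filter Topology MvPolynomial

namespace Pool.Agent.T6.H77.SQ

variable {α K : Type} [Fintype α] [Field K] {ι : Type} {L : ι → Type}
  [∀ v, NontriviallyNormedField (L v)] {σ : ∀ v, K →+* L v} {F : MvPolynomial α K}

/-- moves to a given point -/
theorem mv (hσ : DenseRange fun (a : K) (v : ι) => σ v a) {V : Submodule K (α → K)}
    (hV : Quad F V) {P : ∀ v, α → L v} (hP : P ∈ closure (pts F σ)) (w : ∀ v, α → L v)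
    (hw : ∀ v, w v ∈ ext (σ v) V) (h1 : ∀ v, eval (P v + w v) (map (σ v) F) = 0)
    (hq : ∀ v, qp (map (σ v) F) (P v) (w v) ≠ 0) : (fun v => P v + w v) ∈ closure (pts F σ) := by
  have h0 := fun v => on_closure hP v
  have e : ∀ v, refl (map (σ v) F) (w v) (P v) = P v + w v :=
    fun v => refl_eq (h0 v) (h1 v) (hq v)
  have h := mvd hσ hV hP w hw hq
  simp only [e] at h
  exact h

end Pool.Agent.T6.H77.SQ
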