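import Pool.Agent.T6.H77.SQ.C2

/-! The closure contains the small translates in one block (helper77). -/

set_option autoImplicit false

open Filter Topology MvPolynomial

namespace Pool.Agent.T6.H77.SQ

section loc

variable {α L : Type} [Fintype α] [NontriviallyNormedField L]

/-- a direction in which neither the differential nor the quadratic part vanish -/
theorem exists_dir {f : MvPolynomial α L} {V : Submodule L (α → L)} {T a b : α → L} (ma : a ∈ V)
    (mb : b ∈ V) (ha : d1 f T a ≠ 0) (hb : qp f T b ≠ 0) :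
    ∃ u ∈ V, d1 f T u ≠ 0 ∧ qp f T u ≠ 0 := by
  by_cases h : d1 f T b = 0
  · have c : Continuous fun ε : L => qp f T (b + ε • a) :=
      qp_cont f continuous_const (by fun_prop)
    have hev : ∀ᶠ ε : L in 𝓝 0, qp f T (b + ε • a) ≠ 0 := by
      refine c.continuousAt.eventually_ne ?_
      rw [zero_smul, add_zero]
      exact hb
    obtain ⟨ε, h1, h2⟩ := ((hev.filter_mono nhdsWithin_le_nhds).and
      (self_mem_nhdsWithin (a := (0 : L)) (s := ({0} : Set L)ᶜ))).exists
    refine ⟨b + ε • a, V.add_mem mb (V.smul_mem _ ma), ?_, h1⟩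
    rw [d1_add, d1_smul, h, zero_add]
    exact mul_ne_zero h2 ha
  · exact ⟨b, mb, h, hb⟩

/-- **The local conditions for two moves.** -/
theorem base_local {f : MvPolynomial α L} {T u : α → L}
    (hq : ∀ (z : α → L) (t : L), eval (z + t • u) f = eval z f + t * d1 f z u + t ^ 2 * qp f z u)
    (hd : d1 f T u ≠ 0) (hu : qp f T u ≠ 0) :
    ∀ᶠ e : (α → L) × (α → L) in 𝓝 (T, 0), qp f e.1 u ≠ 0 ∧
      qp f (refl f u e.1) (e.1 + e.2 - refl f u e.1) ≠ 0 := by
  have c1 : Continuous fun e : (α → L) × (α → L) => qp f e.1 u :=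
    qp_cont f continuous_fst continuous_const
  have h1 : ∀ᶠ e : (α → L) × (α → L) in 𝓝 (T, 0), qp f e.1 u ≠ 0 :=
    c1.continuousAt.eventually_ne hu
  have c2 : ContinuousAt (fun e : (α → L) × (α → L) => refl f u e.1) (T, 0) :=
    ContinuousAt.comp (g := fun q : (α → L) × (α → L) => refl f q.1 q.2)
      (f := fun e : (α → L) × (α → L) => (u, e.1)) (refl_contAt f hu)
      (by fun_prop)
  have c3 : ContinuousAt (fun e : (α → L) × (α → L) =>
      (refl f u e.1, e.1 + e.2 - refl f u e.1)) (T, 0) :=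
    c2.prodMk ((continuousAt_fst.add continuousAt_snd).sub c2)
  have c4 : Continuous fun q : (α → L) × (α → L) => qp f q.1 q.2 :=
    qp_cont f continuous_fst continuous_snd
  have c5 : ContinuousAt (fun e : (α → L) × (α → L) =>
      qp f (refl f u e.1) (e.1 + e.2 - refl f u e.1)) (T, 0) :=
    ContinuousAt.comp (g := fun q : (α → L) × (α → L) => qp f q.1 q.2)
      (f := fun e : (α → L) × (α → L) => (refl f u e.1, e.1 + e.2 - refl f u e.1))
      c4.continuousAt c3
  have h2 : ∀ᶠ e : (α → L) × (α → L) in 𝓝 (T, 0),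
      qp f (refl f u e.1) (e.1 + e.2 - refl f u e.1) ≠ 0 := by
    refine c5.eventually_ne ?_
    have e1 : T + (0 : α → L) - refl f u T = (-(-d1 f T u / qp f T u)) • u := by
      rw [refl, neg_smul]
      abel
    change qp f (refl f u T) (T + (0 : α → L) - refl f u T) ≠ 0
    rw [e1, qp_smul hq, refl_qp hq]
    exact mul_ne_zero (pow_ne_zero 2 (neg_ne_zero.2 (div_ne_zero (neg_ne_zero.2 hd) hu))) hu
  exact h1.and h2

end loc

section

variable {α K : Type} [Fintype α] [Field K] {ι : Type} {L : ι → Type}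
  [∀ v, NontriviallyNormedField (L v)] {σ : ∀ v, K →+* L v} {F : MvPolynomial α K}

/-- The closure of the rational points contains all small translates, along the subspaces `W v`, of
its points near `T`, which are on the hypersurface (with neighbourhoods `N v` at all the places). -/
def Spreads (F : MvPolynomial α K) (σ : ∀ v, K →+* L v) (T : ∀ v, α → L v)
    (W : ∀ v, Submodule (L v) (α → L v)) : Prop :=
  ∃ N : ∀ v, Set ((α → L v) × (α → L v)), (∀ v, N v ∈ 𝓝 (T v, 0)) ∧
    ∀ y x : ∀ v, α → L v, (∀ v, (y v, x v) ∈ N v) → y ∈ closure (pts F σ) →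
      (∀ v, x v ∈ W v) → (∀ v, eval (y v + x v) (map (σ v) F) = 0) →
      (fun v => y v + x v) ∈ closure (pts F σ)

/-- **One block**, at some of the places. -/
theorem spreads_one (hσ : DenseRange fun (a : K) (v : ι) => σ v a) {V : Submodule K (α → K)}
    (hV : Quad F V) (T : ∀ v, α → L v)
    (hq : ∀ v, ∃ w ∈ ext (σ v) V, qp (map (σ v) F) (T v) w ≠ 0)
    (W : ∀ v, Submodule (L v) (α → L v))
    (hW : ∀ v, W v = ⊥ ∨
      (W v ≤ ext (σ v) V ∧ ∃ w ∈ ext (σ v) V, d1 (map (σ v) F) (T v) w ≠ 0)) :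
    Spreads F σ T W := by
  classical
  have hu : ∀ v, ∃ u ∈ ext (σ v) V, qp (map (σ v) F) (T v) u ≠ 0 ∧
      (W v = ⊥ ∨ (W v ≤ ext (σ v) V ∧ d1 (map (σ v) F) (T v) u ≠ 0)) := by
    intro v
    obtain ⟨b, mb, hb⟩ := hq v
    rcases hW v with h | ⟨h, a, ma, ha⟩
    · exact ⟨b, mb, hb, Or.inl h⟩
    · obtain ⟨u, mu, h1, h2⟩ := exists_dir ma mb ha hb
      exact ⟨u, mu, h2, Or.inr ⟨h, h1⟩⟩
  choose u mu hu2 hu1 using hu
  have hl : ∀ v, ∀ (z : α → L v) (t : L v), eval (z + t • u v) (map (σ v) F) =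
      eval z (map (σ v) F) + t * d1 (map (σ v) F) z (u v) + t ^ 2 * qp (map (σ v) F) z (u v) :=
    fun v z t => quadL hσ hV v z (u v) (mu v) t
  have hloc : ∀ v, ∀ᶠ e : (α → L v) × (α → L v) in 𝓝 (T v, 0),
      qp (map (σ v) F) e.1 (u v) ≠ 0 ∧ (W v ≠ ⊥ → qp (map (σ v) F) (refl (map (σ v) F) (u v) e.1)
        (e.1 + e.2 - refl (map (σ v) F) (u v) e.1) ≠ 0) := by
    intro v
    by_cases h : W v = ⊥
    · have c1 : Continuous fun e : (α → L v) × (α → L v) => qp (map (σ v) F) e.1 (u v) :=
        qp_cont _ continuous_fst continuous_const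
      filter_upwards [c1.continuousAt.eventually_ne (x := (T v, (0 : α → L v))) (hu2 v)] with e he
      exact ⟨he, fun h2 => absurd h h2⟩
    · filter_upwards [base_local (hl v) ((hu1 v).resolve_left h).2 (hu2 v)] with e he
      exact ⟨he.1, fun _ => he.2⟩
  refine ⟨_, hloc, fun y x he hC hmem hX => ?_⟩
  have h0 := fun v => on_closure hC v
  have m1 := mvd hσ hV hC u mu fun v => (he v).1
  have hon := fun v => on_closure m1 v
  have hr : ∀ v, refl (map (σ v) F) (u v) (y v) - y v ∈ ext (σ v) V := by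
    intro v
    rw [refl, add_sub_cancel_left]
    exact Submodule.smul_mem _ _ (mu v)
  let u' : ∀ v, α → L v := fun v =>
    if W v = ⊥ then u v else y v + x v - refl (map (σ v) F) (u v) (y v)
  have mu' : ∀ v, u' v ∈ ext (σ v) V := by
    intro v
    by_cases h : W v = ⊥
    · simp only [u', if_pos h]
      exact mu v
    · simp only [u', if_neg h]
      have : y v + x v - refl (map (σ v) F) (u v) (y v) =
          x v - (refl (map (σ v) F) (u v) (y v) - y v) := by abel
      rw [this]
      exact Submodule.sub_mem _ (((hu1 v).resolve_left h).1 (hmem v)) (hr v)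
  have hq' : ∀ v, qp (map (σ v) F) (refl (map (σ v) F) (u v) (y v)) (u' v) ≠ 0 := by
    intro v
    by_cases h : W v = ⊥
    · simp only [u', if_pos h]
      rw [refl_qp (hl v)]
      exact (he v).1
    · simp only [u', if_neg h]
      exact (he v).2 h
  have m2 := mvd hσ hV m1 u' mu' hq'
  have e3 : ∀ v, refl (map (σ v) F) (u' v) (refl (map (σ v) F) (u v) (y v)) =
      y v + x v := by
    intro v
    by_cases h : W v = ⊥
    · simp only [u', if_pos h]
      have h2 := hmem v
      rw [h, Submodule.mem_bot] at h2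
      rw [refl_refl (hl v) (he v).1, h2, add_zero]
    · have h3 := hq' v
      simp only [u', if_neg h] at h3 ⊢
      rw [refl_eq (hon v) ?_ h3, add_sub_cancel]
      rw [add_sub_cancel]
      exact hX v
  simp only [e3] at m2
  exact m2

end

end Pool.Agent.T6.H77.SQ
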