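import Pool.Agent.T6.H77.SQ.D

/-! From two subspaces to their sum (helper77). -/

set_option autoImplicit false

open Filter Topology MvPolynomial

namespace Pool.Agent.T6.H77.SQ

section loc

variable {α L : Type} [Fintype α] [NontriviallyNormedField L]

/-- **The local chain.** -/
theorem chain [CompleteSpace L] {f : MvPolynomial α L} {T : α → L} (h0 : eval T f = 0)
    {W V : Submodule L (α → L)} (hw : ∃ w ∈ W, d1 f T w ≠ 0) (hv : ∃ v ∈ V, d1 f T v ≠ 0)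
    (hl : (∃ ζ ∈ W ⊓ V, d1 f T ζ ≠ 0) ∨
      ∃ ξ ∈ W, ∃ η ∈ V, d1 f T ξ = 0 ∧ d1 f T η = 0 ∧ d2 f T ξ η ≠ 0) {δ : ℝ} (hδ : 0 < δ) :
    ∀ᶠ e : (α → L) × (α → L) in 𝓝 (T, 0), eval e.1 f = 0 → eval (e.1 + e.2) f = 0 →
      e.2 ∈ W ⊔ V →
      ∃ x₁ ∈ V, ∃ x₂ ∈ W, ∃ x₃ ∈ V, ∃ x₄ ∈ W, (‖x₁‖ < δ ∧ ‖x₂‖ < δ ∧ ‖x₃‖ < δ ∧ ‖x₄‖ < δ) ∧
        x₁ + x₂ + x₃ + x₄ = e.2 ∧ eval (e.1 + x₁) f = 0 ∧ eval (e.1 + x₁ + x₂) f = 0 ∧
        eval (e.1 + x₁ + x₂ + x₃) f = 0 := by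
  have hN : {x : α → L | ‖x‖ < δ / 2} ∈ 𝓝 (0 : α → L) := by
    have h := Metric.ball_mem_nhds (0 : α → L) (half_pos hδ)
    refine Filter.mem_of_superset h fun x hx => ?_
    rwa [mem_ball_zero_iff] at hx
  have hsub : ∀ x y : α → L, ‖x‖ < δ / 2 → ‖y‖ < δ / 2 → ‖x - y‖ < δ := fun x y hx hy =>
    (norm_sub_le x y).trans_lt (by linarith)
  have hadd : ∀ x y : α → L, ‖x‖ < δ / 2 → ‖y‖ < δ / 2 → ‖x + y‖ < δ := fun x y hx hy =>
    (norm_add_le x y).trans_lt (by linarith)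
  rcases hl with ⟨ζ, mζ, hζ⟩ | ⟨ξ, mξ, η, mη, hξ, hη, h2⟩
  · have h1 := solve1 f h0 hζ hN
    have hc : Continuous fun e : (α → L) × (α → L) => e.1 + e.2 := by fun_prop
    have h3 : ∀ᶠ e : (α → L) × (α → L) in 𝓝 (T, 0), ∃ s : L,
        s • ζ ∈ {x : α → L | ‖x‖ < δ / 2} ∧ eval (e.1 + e.2 + s • ζ) f = 0 := by
      have h4 : ContinuousAt (fun e : (α → L) × (α → L) => e.1 + e.2) (T, 0) := hc.continuousAt
      have h5 : Tendsto (fun e : (α → L) × (α → L) => e.1 + e.2) (𝓝 (T, 0)) (𝓝 T) := by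
        have h6 := h4.tendsto
        simp only [add_zero] at h6
        exact h6
      exact h5.eventually h1
    rw [nhds_prod_eq, Filter.eventually_prod_iff] at h3
    obtain ⟨p1, hp1, p2, hp2, hp⟩ := h3
    have hs := split V W (N := {x : α → L | ‖x‖ < δ / 2} ∩ {x | p2 x}) (Filter.inter_mem hN hp2)
    rw [nhds_prod_eq, Filter.eventually_prod_iff]
    refine ⟨p1, hp1, _, hs, fun {z} hz {u} hu hz0 hz1 hmem => ?_⟩
    obtain ⟨w, mw, v, mv, n1, n2, rfl⟩ := hu hmem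
    obtain ⟨s, n3, e1⟩ := hp hz n1.2
    refine ⟨0, V.zero_mem, w + s • ζ, W.add_mem mw (W.smul_mem _ mζ.1), v - s • ζ,
      V.sub_mem mv (V.smul_mem _ mζ.2), 0, W.zero_mem, ⟨?_, hadd _ _ n1.1 n3, hsub _ _ n2.1 n3, ?_⟩,
      ?_, ?_, ?_, ?_⟩
    · rw [norm_zero]
      exact hδ
    · rw [norm_zero]
      exact hδ
    · change 0 + (w + s • ζ) + (v - s • ζ) + 0 = w + v
      abel
    · change eval (z + 0) f = 0
      rw [add_zero]
      exact hz0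
    · change eval (z + 0 + (w + s • ζ)) f = 0
      rw [add_zero, ← add_assoc]
      exact e1
    · change eval (z + 0 + (w + s • ζ) + (v - s • ζ)) f = 0
      change eval (z + (w + v)) f = 0 at hz1
      rw [← hz1]
      congr 2
      abel
  · obtain ⟨w0, mw0, hw0⟩ := hw
    obtain ⟨v0, mv0, hv0⟩ := hv
    have h3 := step_local f h0 mv0 mw0 mξ mη hv0 hw0 hξ hη h2 hN
    rw [nhds_prod_eq, Filter.eventually_prod_iff] at h3
    obtain ⟨p1, hp1, p2, hp2, hp⟩ := h3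
    have hs := split V W (N := {x : α → L | ‖x‖ < δ / 2} ∩ {x | p2 x}) (Filter.inter_mem hN hp2)
    rw [nhds_prod_eq, Filter.eventually_prod_iff]
    refine ⟨p1, hp1, _, hs, fun {z} hz {u} hu hz0 hz1 hmem => ?_⟩
    obtain ⟨w, mw, v, mv, n1, n2, rfl⟩ := hu hmem
    obtain ⟨v1, mv1, w1, mw1, n3, n4, e1, e2, e3⟩ := hp hz n2.2
    refine ⟨v1, mv1, w1, mw1, v - v1, V.sub_mem mv mv1, w - w1, W.sub_mem mw mw1,
      ⟨lt_of_lt_of_le n3 (by linarith), lt_of_lt_of_le n4 (by linarith), hsub _ _ n2.1 n3,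
        hsub _ _ n1.1 n4⟩, ?_, e1, e2, ?_⟩
    · change v1 + w1 + (v - v1) + (w - w1) = w + v
      abel
    · change eval (z + v1 + w1 + (v - v1)) f = 0
      rw [← e3]
      congr 2
      change z + v1 + w1 + (v - v1) = z + w1 + v
      abel

/-- one can pass from `W` and `V` to the sum -/
def Joins (f : MvPolynomial α L) (T : α → L) (W V : Submodule L (α → L)) : Prop :=
  V ≤ W ∨ W ≤ V ∨ ((∃ w ∈ W, d1 f T w ≠ 0) ∧ (∃ v ∈ V, d1 f T v ≠ 0) ∧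
    ((∃ ζ ∈ W ⊓ V, d1 f T ζ ≠ 0) ∨
      ∃ ξ ∈ W, ∃ η ∈ V, d1 f T ξ = 0 ∧ d1 f T η = 0 ∧ d2 f T ξ η ≠ 0))

/-- **The local chain.** -/
theorem chain' [CompleteSpace L] {f : MvPolynomial α L} {T : α → L} (h0 : eval T f = 0)
    {W V : Submodule L (α → L)} (hl : Joins f T W V) {δ : ℝ} (hδ : 0 < δ) :
    ∀ᶠ e : (α → L) × (α → L) in 𝓝 (T, 0), eval e.1 f = 0 → eval (e.1 + e.2) f = 0 →
      e.2 ∈ W ⊔ V →
      ∃ x₁ ∈ V, ∃ x₂ ∈ W, ∃ x₃ ∈ V, ∃ x₄ ∈ W, (‖x₁‖ < δ ∧ ‖x₂‖ < δ ∧ ‖x₃‖ < δ ∧ ‖x₄‖ < δ) ∧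
        x₁ + x₂ + x₃ + x₄ = e.2 ∧ eval (e.1 + x₁) f = 0 ∧ eval (e.1 + x₁ + x₂) f = 0 ∧
        eval (e.1 + x₁ + x₂ + x₃) f = 0 := by
  have hn : ∀ᶠ e : (α → L) × (α → L) in 𝓝 (T, 0), ‖e.2‖ < δ := by
    have c : Continuous fun e : (α → L) × (α → L) => ‖e.2‖ := by fun_prop
    refine c.continuousAt.eventually_lt continuousAt_const ?_
    change ‖(0 : α → L)‖ < δ
    rw [norm_zero]
    exact hδ
  have z0 : ‖(0 : α → L)‖ < δ := by
    rw [norm_zero]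
    exact hδ
  rcases hl with h | h | ⟨hw, hv, hl⟩
  · filter_upwards [hn] with e he h1 h2 h3
    rw [sup_eq_left.2 h] at h3
    refine ⟨0, V.zero_mem, e.2, h3, 0, V.zero_mem, 0, W.zero_mem, ⟨z0, he, z0, z0⟩, ?_, ?_, ?_, ?_⟩
    · abel
    · rw [add_zero]
      exact h1
    · rw [add_zero]
      exact h2
    · rw [add_zero, add_zero]
      exact h2
  · filter_upwards [hn] with e he h1 h2 h3
    rw [sup_eq_right.2 h] at h3
    refine ⟨e.2, h3, 0, W.zero_mem, 0, V.zero_mem, 0, W.zero_mem, ⟨he, z0, z0, z0⟩, ?_, h2, ?_, ?_⟩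
    · abel
    · rw [add_zero]
      exact h2
    · rw [add_zero, add_zero]
      exact h2
  · exact chain h0 hw hv hl hδ

end loc

section

variable {α K : Type} [Fintype α] [Field K] {ι : Type} {L : ι → Type}
  [∀ v, NontriviallyNormedField (L v)] {σ : ∀ v, K →+* L v} {F : MvPolynomial α K}

/-- balls instead of neighbourhoods -/
theorem ball_sub {E : Type} [NontriviallyNormedField E] {T : α → E}
    {N : Set ((α → E) × (α → E))} (h : N ∈ 𝓝 (T, (0 : α → E))) :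
    ∃ ε : ℝ, 0 < ε ∧ ∀ y x : α → E, ‖y - T‖ < ε → ‖x‖ < ε → (y, x) ∈ N := by
  obtain ⟨ε, hε, hb⟩ := Metric.mem_nhds_iff.1 h
  refine ⟨ε, hε, fun y x hy hx => hb ?_⟩
  rw [Metric.mem_ball, Prod.dist_eq, max_lt_iff]
  refine ⟨?_, ?_⟩
  · rw [dist_eq_norm]
    exact hy
  · rw [dist_eq_norm]
    change ‖x - 0‖ < ε
    rw [sub_zero]
    exact hx

/-- **From two subspaces to their sum.** -/
theorem spreads_sup [∀ v, CompleteSpace (L v)] {T : ∀ v, α → L v}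
    (h0 : ∀ v, eval (T v) (map (σ v) F) = 0) {V W : ∀ v, Submodule (L v) (α → L v)}
    (hV : Spreads F σ T V) (hW : Spreads F σ T W)
    (hl : ∀ v, Joins (map (σ v) F) (T v) (W v) (V v)) :
    Spreads F σ T (fun v => W v ⊔ V v) := by
  obtain ⟨N₁, hN₁, hb₁⟩ := hV
  obtain ⟨N₂, hN₂, hb₂⟩ := hW
  choose ε hε hball using fun v => ball_sub (Filter.inter_mem (hN₁ v) (hN₂ v))
  have hδ : ∀ v, 0 < ε v / 5 := fun v => div_pos (hε v) (by norm_num)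
  have hch := fun v => chain' (h0 v) (hl v) (hδ v)
  have hT : ∀ v, ∀ᶠ e : (α → L v) × (α → L v) in 𝓝 (T v, 0), ‖e.1 - T v‖ < ε v / 5 := by
    intro v
    have c : Continuous fun e : (α → L v) × (α → L v) => ‖e.1 - T v‖ := by fun_prop
    refine c.continuousAt.eventually_lt continuousAt_const ?_
    change ‖T v - T v‖ < ε v / 5
    rw [sub_self, norm_zero]
    exact hδ v
  refine ⟨_, fun v => (hch v).and (hT v), fun y x he hC hmem hX => ?_⟩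
  have hon := fun v => on_closure hC v
  have he' := fun v => (he v).1 (hon v) (hX v) (hmem v)
  choose x₁ m₁ x₂ m₂ x₃ m₃ x₄ m₄ hnorm hsum e₁ e₂ e₃ using he'
  have tri : ∀ (v : ι) (a b : α → L v) (r : ℝ), ‖a - T v‖ < r → ‖b‖ < ε v / 5 →
      ‖a + b - T v‖ < r + ε v / 5 := by
    intro v a b r ha hb
    rw [show a + b - T v = (a - T v) + b by abel]
    exact (norm_add_le _ _).trans_lt (add_lt_add ha hb)
  have q1 : ∀ v, ‖y v - T v‖ < ε v / 5 := fun v => (he v).2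
  have q2 : ∀ v, ‖y v + x₁ v - T v‖ < ε v / 5 + ε v / 5 := fun v => tri v _ _ _ (q1 v) (hnorm v).1
  have q3 : ∀ v, ‖y v + x₁ v + x₂ v - T v‖ < ε v / 5 + ε v / 5 + ε v / 5 := fun v =>
    tri v _ _ _ (q2 v) (hnorm v).2.1
  have q4 : ∀ v, ‖y v + x₁ v + x₂ v + x₃ v - T v‖ < ε v / 5 + ε v / 5 + ε v / 5 + ε v / 5 :=
    fun v => tri v _ _ _ (q3 v) (hnorm v).2.2.1
  have c1 := hb₁ y x₁ (fun v => (hball v _ _ ((q1 v).trans (by linarith [hε v]))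
    ((hnorm v).1.trans (by linarith [hε v]))).1) hC m₁ e₁
  have c2 := hb₂ (fun v => y v + x₁ v) x₂ (fun v => (hball v _ _
    ((q2 v).trans (by linarith [hε v])) ((hnorm v).2.1.trans (by linarith [hε v]))).2) c1 m₂ e₂
  have c3 := hb₁ (fun v => y v + x₁ v + x₂ v) x₃ (fun v => (hball v _ _
    ((q3 v).trans (by linarith [hε v])) ((hnorm v).2.2.1.trans (by linarith [hε v]))).1) c2 m₃ e₃
  have hfin : ∀ v, y v + x₁ v + x₂ v + x₃ v + x₄ v = y v + x v := by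
    intro v
    have h := hsum v
    change x₁ v + x₂ v + x₃ v + x₄ v = x v at h
    rw [← h]
    abel
  have c4 := hb₂ (fun v => y v + x₁ v + x₂ v + x₃ v) x₄ (fun v => (hball v _ _
    ((q4 v).trans (by linarith [hε v])) ((hnorm v).2.2.2.trans (by linarith [hε v]))).2) c3 m₄
    (fun v => by
      rw [hfin]
      exact hX v)
  have e5 : (fun v => y v + x₁ v + x₂ v + x₃ v + x₄ v) = fun v => y v + x v :=
    funext hfin
  have c5 : (fun v => y v + x₁ v + x₂ v + x₃ v + x₄ v) ∈ closure (pts F σ) := c4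
  rw [e5] at c5
  exact c5

end

end Pool.Agent.T6.H77.SQ
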