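import Pool.Agent.T6.H77.SQ.E

/-! Linked blocks; transport by moves (helper77). -/

set_option autoImplicit false

open Filter Topology MvPolynomial

namespace Pool.Agent.T6.H77.SQ

section defs

variable {α κ : Type} [Fintype α] {ι : Type} {L : ι → Type} [∀ v, Field (L v)]

/-- The subspaces `V` and `W` are linked at `T`: the differential of `f` does not vanish on `W ⊓ V`,
or the second differential does not vanish for some tangent vectors `ξ ∈ W` and `η ∈ V`. -/
def Link {E : Type} [Field E] (f : MvPolynomial α E) (T : α → E) (W V : Submodule E (α → E)) :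
    Prop :=
  (∃ ζ ∈ W ⊓ V, d1 f T ζ ≠ 0) ∨
    ∃ ξ ∈ W, ∃ η ∈ V, d1 f T ξ = 0 ∧ d1 f T η = 0 ∧ d2 f T ξ η ≠ 0

/-- The families of subspaces which one gets from `0` in a finite number of steps, where in each
step a block `V i` (the same for all `v`) is added at some of the `v` (those at which nothing
happens are arbitrary): the differential does not vanish on it, and it is linked to the old
subspace, if this is not `0`. -/
inductive Linked (f : ∀ v, MvPolynomial α (L v)) (V : κ → ∀ v, Submodule (L v) (α → L v))
    (T : ∀ v, α → L v) : (∀ v, Submodule (L v) (α → L v)) → Prop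
  | bot : Linked f V T (fun _ => ⊥)
  | join (W W' : ∀ v, Submodule (L v) (α → L v)) (i : κ) (hW : Linked f V T W)
      (h : ∀ v, W' v = W v ∨ (W' v = W v ⊔ V i v ∧ (∃ w ∈ V i v, d1 (f v) (T v) w ≠ 0) ∧
        (W v = ⊥ ∨ Link (f v) (T v) (W v) (V i v)))) : Linked f V T W'

/-- The quadratic parts of the `f v` at `T v` in the blocks are not zero, and the whole space is
linked. -/
def Good (f : ∀ v, MvPolynomial α (L v)) (V : κ → ∀ v, Submodule (L v) (α → L v))
    (T : ∀ v, α → L v) : Prop :=
  (∀ i v, ∃ w ∈ V i v, qp (f v) (T v) w ≠ 0) ∧ Linked f V T (fun _ => ⊤)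

/-- The systems of points from which one gets to good points by moves: for one of the blocks `V i`
and vectors `u v` in it with nonzero quadratic parts, the points `T v` are replaced by the second
points of the lines through them of direction `u v`. -/
inductive Nice (f : ∀ v, MvPolynomial α (L v)) (V : κ → ∀ v, Submodule (L v) (α → L v)) :
    (∀ v, α → L v) → Prop
  | good (T : ∀ v, α → L v) (h : Good f V T) : Nice f V T
  | move (T : ∀ v, α → L v) (i : κ) (u : ∀ v, α → L v)
      (hu : ∀ v, u v ∈ V i v ∧ qp (f v) (T v) (u v) ≠ 0)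
      (h : Nice f V (fun v => refl (f v) (u v) (T v))) : Nice f V T

theorem Linked.dir {f : ∀ v, MvPolynomial α (L v)} {V : κ → ∀ v, Submodule (L v) (α → L v)}
    {T : ∀ v, α → L v} {W : ∀ v, Submodule (L v) (α → L v)} (h : Linked f V T W) (v : ι) :
    W v = ⊥ ∨ ∃ w ∈ W v, d1 (f v) (T v) w ≠ 0 := by
  induction h with
  | bot => exact Or.inl rfl
  | join W W' i hW h ih =>
    rcases h v with h1 | ⟨h1, ⟨w, mw, hw⟩, -⟩
    · rw [h1]
      exact ih
    · rw [h1]
      exact Or.inr ⟨w, Submodule.mem_sup_right mw, hw⟩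

end defs

section

variable {α K κ : Type} [Fintype α] [Field K] {ι : Type} {L : ι → Type}
  [∀ v, NontriviallyNormedField (L v)] {σ : ∀ v, K →+* L v} {F : MvPolynomial α K}

omit [Fintype α] in
theorem spreads_bot (T : ∀ v, α → L v) : Spreads F σ T (fun _ => ⊥) := by
  refine ⟨fun _ => Set.univ, fun _ => Filter.univ_mem, fun y x _ hC hm _ => ?_⟩
  have : (fun v => y v + x v) = y := by
    funext v
    have h := hm v
    rw [Submodule.mem_bot] at h
    rw [h, add_zero]
  rw [this]
  exact hC

/-- **Linked subspaces.** -/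
theorem spreads_linked [∀ v, CompleteSpace (L v)]
    (hσ : DenseRange fun (a : K) (v : ι) => σ v a)
    {V : κ → Submodule K (α → K)} (hV : ∀ i, Quad F (V i)) {T : ∀ v, α → L v}
    (h0 : ∀ v, eval (T v) (map (σ v) F) = 0)
    (hq : ∀ i v, ∃ w ∈ ext (σ v) (V i), qp (map (σ v) F) (T v) w ≠ 0)
    {W : ∀ v, Submodule (L v) (α → L v)}
    (hW : Linked (fun v => map (σ v) F) (fun i v => ext (σ v) (V i)) T W) :
    Spreads F σ T W := by
  classical
  induction hW with
  | bot => exact spreads_bot T
  | join W W' i hW h ih =>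
    let B : ∀ v, Submodule (L v) (α → L v) := fun v => if W' v = W v then ⊥ else ext (σ v) (V i)
    have hB : Spreads F σ T B := by
      refine spreads_one hσ (hV i) T (fun v => hq i v) _ fun v => ?_
      by_cases hv : W' v = W v
      · exact Or.inl (if_pos hv)
      · refine Or.inr ?_
        simp only [B, if_neg hv]
        exact ⟨le_rfl, ((h v).resolve_left hv).2.1⟩
    have h1 := spreads_sup h0 hB ih fun v => by
      by_cases hv : W' v = W v
      · simp only [B, if_pos hv]
        exact Or.inl bot_le
      · simp only [B, if_neg hv]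
        obtain ⟨-, h2, h3⟩ := (h v).resolve_left hv
        rcases h3 with h3 | h3
        · refine Or.inr (Or.inl ?_)
          rw [h3]
          exact bot_le
        · rcases hW.dir v with h4 | h4
          · refine Or.inr (Or.inl ?_)
            rw [h4]
            exact bot_le
          · exact Or.inr (Or.inr ⟨h4, h2, h3⟩)
    have e : (fun v => W v ⊔ B v) = W' := by
      funext v
      by_cases hv : W' v = W v
      · simp only [B, if_pos hv]
        rw [sup_bot_eq, hv]
      · simp only [B, if_neg hv]
        exact ((h v).resolve_left hv).1.symm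
    rw [e] at h1
    exact h1

/-- There are neighbourhoods `U v` of the `T v` (for all `v`) such that the product of the sets of
the points of `F = 0` in `U v` is contained in the closure of the set of the `K`-points. -/
def OpenAt (F : MvPolynomial α K) (σ : ∀ v, K →+* L v) (T : ∀ v, α → L v) : Prop :=
  ∃ U : ∀ v, Set (α → L v), (∀ v, U v ∈ 𝓝 (T v)) ∧ ∀ S : ∀ v, α → L v, (∀ v, S v ∈ U v) →
    (∀ v, eval (S v) (map (σ v) F) = 0) → S ∈ closure (pts F σ)

/-- **The good points.** -/
theorem open_good [∀ v, CompleteSpace (L v)]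
    (hσ : DenseRange fun (a : K) (v : ι) => σ v a)
    {V : κ → Submodule K (α → K)} (hV : ∀ i, Quad F (V i)) {T : ∀ v, α → L v}
    (hT : T ∈ closure (pts F σ))
    (hG : Good (fun v => map (σ v) F) (fun i v => ext (σ v) (V i)) T) : OpenAt F σ T := by
  have h0 := fun v => on_closure hT v
  obtain ⟨N, hN, h⟩ := spreads_linked hσ hV h0 hG.1 hG.2
  have h2 : ∀ v, ∀ᶠ S : α → L v in 𝓝 (T v), (T v, S - T v) ∈ N v := by
    intro v
    have c : Continuous fun S : α → L v => (T v, S - T v) := by fun_prop
    have c3 := (c.continuousAt (x := T v)).tendsto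
    simp only [sub_self] at c3
    exact c3.eventually (hN v)
  refine ⟨_, h2, fun S hS hX => ?_⟩
  have e : ∀ v, T v + (S v - T v) = S v := fun v => add_sub_cancel _ _
  have h3 := h T (fun v => S v - T v) hS hT (fun v => Submodule.mem_top) (fun v => by
    rw [e]
    exact hX v)
  simp only [e] at h3
  exact h3

/-- **Transport by a move.** -/
theorem open_move (hσ : DenseRange fun (a : K) (v : ι) => σ v a)
    {V : Submodule K (α → K)} (hV : Quad F V) {T : ∀ v, α → L v} (u : ∀ v, α → L v)
    (mu : ∀ v, u v ∈ ext (σ v) V) (hu : ∀ v, qp (map (σ v) F) (T v) (u v) ≠ 0)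
    (h : OpenAt F σ (fun v => refl (map (σ v) F) (u v) (T v))) : OpenAt F σ T := by
  have hl : ∀ v, ∀ (z : α → L v) (t : L v), eval (z + t • u v) (map (σ v) F) =
      eval z (map (σ v) F) + t * d1 (map (σ v) F) z (u v) + t ^ 2 * qp (map (σ v) F) z (u v) :=
    fun v z t => quadL hσ hV v z (u v) (mu v) t
  obtain ⟨U, hU, hUX⟩ := h
  have h1 : ∀ v, ∀ᶠ S : α → L v in 𝓝 (T v), refl (map (σ v) F) (u v) S ∈ U v ∧
      qp (map (σ v) F) S (u v) ≠ 0 := by
    intro v
    have c : ContinuousAt (fun S : α → L v => refl (map (σ v) F) (u v) S) (T v) := by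
      have h1 := refl_contAt (map (σ v) F) (hu v)
      have h2 : ContinuousAt (fun S : α → L v => (u v, S)) (T v) := by fun_prop
      exact ContinuousAt.comp (g := fun q : (α → L v) × (α → L v) => refl (map (σ v) F) q.1 q.2)
        (f := fun S : α → L v => (u v, S)) h1 h2
    have h3 : ∀ᶠ S : α → L v in 𝓝 (T v), qp (map (σ v) F) S (u v) ≠ 0 :=
      (qp_cont (map (σ v) F) continuous_id continuous_const).continuousAt.eventually_ne (hu v)
    exact (c.tendsto.eventually (hU v)).and h3
  refine ⟨_, h1, fun S hS hX => ?_⟩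
  have m := mvd hσ hV (hUX _ (fun v => (hS v).1) fun v => refl_on (hl v) (hX v) (hS v).2) u mu
    fun v => by
      rw [refl_qp (hl v)]
      exact (hS v).2
  have e : ∀ v, refl (map (σ v) F) (u v) (refl (map (σ v) F) (u v) (S v)) = S v := fun v =>
    refl_refl (hl v) (hS v).2
  simp only [e] at m
  exact m

/-- **The closure is open at the nice points.** -/
theorem open_nice [∀ v, CompleteSpace (L v)]
    (hσ : DenseRange fun (a : K) (v : ι) => σ v a)
    {V : κ → Submodule K (α → K)} (hV : ∀ i, Quad F (V i)) {T : ∀ v, α → L v}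
    (hN : Nice (fun v => map (σ v) F) (fun i v => ext (σ v) (V i)) T)
    (hT : T ∈ closure (pts F σ)) : OpenAt F σ T := by
  induction hN with
  | good T h => exact open_good hσ hV hT h
  | move T i u hu h ih =>
    exact open_move hσ (hV i) u (fun v => (hu v).1) (fun v => (hu v).2)
      (ih (mvd hσ (hV i) hT u (fun v => (hu v).1) fun v => (hu v).2))

end

end Pool.Agent.T6.H77.SQ
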