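import Pool.Agent.T6.H77.SQ.C

/-! Polynomials of degree at most two along a subspace (helper77). -/

set_option autoImplicit false

open MvPolynomial

namespace Pool.Agent.T6.H77.SQ

variable {α K : Type} [Field K]

/-- the polynomial `F(z + t w)` in `t` -/
noncomputable def line (F : MvPolynomial α K) (z w : α → K) : Polynomial K :=
  aeval (fun i => Polynomial.C (z i) + Polynomial.C (w i) * Polynomial.X) F

/-- For `w` in `V` and all `z` the polynomial `F(z + t w)` in `t` has degree at most two. -/
def QuadraticAlong (F : MvPolynomial α K) (V : Submodule K (α → K)) : Prop :=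
  ∀ z, ∀ w ∈ V, (line F z w).natDegree ≤ 2

/-- the subspace of the vectors whose coordinates outside of `B` are zero -/
def block (K : Type) [Field K] {α : Type} (B : Set α) : Submodule K (α → K) where
  carrier := {w | ∀ j ∉ B, w j = 0}
  zero_mem' := fun _ _ => rfl
  add_mem' := fun {a b} ha hb j hj => by rw [Pi.add_apply, ha j hj, hb j hj, add_zero]
  smul_mem' := fun c a ha j hj => by rw [Pi.smul_apply, ha j hj, smul_zero]

theorem eval_line (F : MvPolynomial α K) (z w : α → K) (t : K) :
    (line F z w).eval t = eval (z + t • w) F := by
  induction F using MvPolynomial.induction_on with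
  | C a => simp [line]
  | add p q hp hq =>
    have h : line (p + q) z w = line p z w + line q z w := map_add _ _ _
    rw [h, Polynomial.eval_add, hp, hq, map_add]
  | mul_X p i hp =>
    have h : line (p * X i) z w = line p z w *
        (Polynomial.C (z i) + Polynomial.C (w i) * Polynomial.X) := by
      simp [line]
    rw [h, Polynomial.eval_mul, hp, map_mul, eval_X, Polynomial.eval_add, Polynomial.eval_C,
      Polynomial.eval_mul, Polynomial.eval_C, Polynomial.eval_X, Pi.add_apply, Pi.smul_apply,
      smul_eq_mul, mul_comm (w i) t]

theorem coeff_zero_line (F : MvPolynomial α K) (z w : α → K) :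
    (line F z w).coeff 0 = eval z F := by
  rw [Polynomial.coeff_zero_eq_eval_zero, eval_line, zero_smul, add_zero]

variable [Fintype α]

theorem coeff_one_line (F : MvPolynomial α K) (z w : α → K) :
    (line F z w).coeff 1 = d1 F z w := by
  classical
  induction F using MvPolynomial.induction_on with
  | C a => simp [line, d1]
  | add p q hp hq =>
    have h : line (p + q) z w = line p z w + line q z w := map_add _ _ _
    rw [h, Polynomial.coeff_add, hp, hq]
    simp only [d1, map_add, add_mul, Finset.sum_add_distrib]
  | mul_X p i hp =>
    have h : line (p * X i) z w = Polynomial.C (z i) * line p z w +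
        Polynomial.C (w i) * (line p z w * Polynomial.X) := by
      simp [line]
      ring
    rw [h, Polynomial.coeff_add, Polynomial.coeff_C_mul, Polynomial.coeff_C_mul, hp,
      Polynomial.coeff_mul_X, coeff_zero_line]
    simp only [d1, Derivation.leibniz, smul_eq_mul, map_add, map_mul, eval_X, add_mul,
      Finset.sum_add_distrib, pderiv_X, Finset.mul_sum]
    rw [add_comm]
    congr 1
    · rw [Finset.sum_eq_single i]
      · simp [mul_comm]
      · intro j _ hj
        rw [Pi.single_eq_of_ne (Ne.symm hj)]
        simp
      · intro h
        exact absurd (Finset.mem_univ i) h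
    · exact Finset.sum_congr rfl fun j _ => by ring

theorem QuadraticAlong.quad {F : MvPolynomial α K} {V : Submodule K (α → K)}
    (h : QuadraticAlong F V) : Quad F V := by
  intro z w hw t
  have h1 : ∀ s : K, eval (z + s • w) F = eval z F + s * d1 F z w + s ^ 2 *
      (line F z w).coeff 2 := by
    intro s
    rw [← eval_line, Polynomial.eval_eq_sum_range' (n := 3) (Nat.lt_succ_of_le (h z w hw)),
      Finset.sum_range_succ, Finset.sum_range_succ, Finset.sum_range_one, coeff_zero_line,
      coeff_one_line]
    ring
  have h2 : qp F z w = (line F z w).coeff 2 := by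
    have h3 := h1 1
    rw [one_smul] at h3
    rw [qp, h3]
    ring
  rw [h1 t, h2]

omit [Fintype α] in
/-- **Blocks of variables.** -/
theorem quadratic_block (F : MvPolynomial α K) (B : Finset α)
    (h : ∀ m ∈ F.support, ∑ j ∈ B, m j ≤ 2) : QuadraticAlong F (block K (B : Set α)) := by
  classical
  intro z w hw
  rw [line, F.as_sum, map_sum]
  refine Polynomial.natDegree_sum_le_of_forall_le _ _ fun m hm => ?_
  rw [aeval_monomial]
  refine (Polynomial.natDegree_mul_le).trans ?_
  have h0 : (algebraMap K (Polynomial K) (coeff m F)).natDegree = 0 := by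
    rw [Polynomial.algebraMap_eq, Polynomial.natDegree_C]
  rw [h0, zero_add]
  refine (Polynomial.natDegree_prod_le _ _).trans ?_
  have h1 : ∀ j ∈ m.support, ((fun j k => (Polynomial.C (z j) + Polynomial.C (w j) *
      Polynomial.X : Polynomial K) ^ k) j (m j)).natDegree ≤ if j ∈ B then m j else 0 := by
    intro j _
    by_cases hj : j ∈ B
    · rw [if_pos hj]
      refine Polynomial.natDegree_pow_le.trans ?_
      have : (Polynomial.C (z j) + Polynomial.C (w j) * Polynomial.X : Polynomial K).natDegree ≤ 1 := by
        refine (Polynomial.natDegree_add_le _ _).trans ?_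
        rw [Polynomial.natDegree_C]
        exact max_le zero_le_one ((Polynomial.natDegree_C_mul_le _ _).trans
          Polynomial.natDegree_X_le)
      calc m j * _ ≤ m j * 1 := Nat.mul_le_mul_left _ this
        _ = m j := mul_one _
    · rw [if_neg hj]
      have hwj : w j = 0 := hw j hj
      have : ((Polynomial.C (z j) + Polynomial.C (w j) * Polynomial.X : Polynomial K) ^ m j) =
          Polynomial.C (z j ^ m j) := by
        rw [hwj]
        simp
      change ((Polynomial.C (z j) + Polynomial.C (w j) * Polynomial.X : Polynomial K) ^
        m j).natDegree ≤ 0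
      rw [this, Polynomial.natDegree_C]
  refine (Finset.sum_le_sum h1).trans ?_
  rw [← Finset.sum_filter]
  refine le_trans ?_ (h m hm)
  refine Finset.sum_le_sum_of_subset_of_nonneg ?_ fun _ _ _ => Nat.zero_le _
  intro j hj
  exact (Finset.mem_filter.1 hj).2

end Pool.Agent.T6.H77.SQ
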