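import Pool.Agent.T6.H77.SQ.G
import Pool.Agent.T6.H77.SQ.I0

/-! Rational points which are good over the ground field (helper77). -/

set_option autoImplicit false

open Filter Topology MvPolynomial

namespace Pool.Agent.T6.H77.SQ

section ext

variable {α K E : Type} [Field K] [Field E] (σ : K →+* E)

theorem mem_ext {V : Submodule K (α → K)} {w : α → K} (h : w ∈ V) :
    (fun i => σ (w i)) ∈ ext σ V :=
  Submodule.subset_span ⟨w, h, rfl⟩

theorem ext_mono {V W : Submodule K (α → K)} (h : V ≤ W) : ext σ V ≤ ext σ W :=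
  Submodule.span_mono (Set.image_mono h)

theorem ext_bot : ext σ (⊥ : Submodule K (α → K)) = ⊥ := by
  rw [ext, Submodule.bot_coe, Set.image_singleton, Submodule.span_singleton_eq_bot]
  funext i
  exact map_zero σ

theorem ext_sup (V W : Submodule K (α → K)) : ext σ (V ⊔ W) = ext σ V ⊔ ext σ W := by
  refine le_antisymm (Submodule.span_le.2 ?_) (sup_le (ext_mono σ le_sup_left)
    (ext_mono σ le_sup_right))
  rintro _ ⟨a, ha, rfl⟩
  obtain ⟨x, hx, y, hy, rfl⟩ := Submodule.mem_sup.1 ha
  have e : (fun i => σ ((x + y) i)) = (fun i => σ (x i)) + fun i => σ (y i) := by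
    funext i
    exact map_add σ _ _
  change (fun i => σ ((x + y) i)) ∈ _
  rw [e]
  exact Submodule.add_mem_sup (mem_ext σ hx) (mem_ext σ hy)

theorem ext_top [Fintype α] : ext σ (⊤ : Submodule K (α → K)) = ⊤ := by
  classical
  rw [eq_top_iff]
  rintro x -
  have h : x = ∑ j, x j • (fun i => σ ((Pi.single j 1 : α → K) i)) := by
    funext i
    rw [Finset.sum_apply, Finset.sum_eq_single i]
    · simp
    · intro j _ hj
      simp [Pi.single_eq_of_ne (Ne.symm hj)]
    · intro h
      exact absurd (Finset.mem_univ i) h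
  rw [h]
  exact Submodule.sum_mem _ fun j _ => Submodule.smul_mem _ _ (mem_ext σ Submodule.mem_top)

end ext

section map

variable {α K E : Type} [Fintype α] [Field K] [Field E] (σ : K →+* E)

theorem d2_map (F : MvPolynomial α K) (z w w' : α → K) :
    d2 (map σ F) (fun i => σ (z i)) (fun i => σ (w i)) (fun i => σ (w' i)) =
      σ (d2 F z w w') := by
  simp only [d2, map_sum, map_mul]
  refine Finset.sum_congr rfl fun j _ => ?_
  congr 1
  refine Finset.sum_congr rfl fun i _ => ?_
  congr 1
  rw [pderiv_map, pderiv_map]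
  exact eval_mapσ σ _ z

theorem refl_map (F : MvPolynomial α K) (z u : α → K) :
    refl (map σ F) (fun i => σ (u i)) (fun i => σ (z i)) = fun i => σ (refl F u z i) := by
  funext i
  rw [refl, refl, d1_map, qp_map]
  change σ (z i) + (-σ (d1 F z u) / σ (qp F z u)) * σ (u i) =
    σ (z i + (-d1 F z u / qp F z u) * u i)
  rw [map_add, map_mul, map_div₀, map_neg]

theorem ne_map {a : K} (h : a ≠ 0) : σ a ≠ 0 := fun h2 => h (by
  rw [← map_zero σ] at h2
  exact σ.injective h2)

theorem link_map {F : MvPolynomial α K} {z : α → K} {W V : Submodule K (α → K)}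
    (h : Link F z W V) : Link (map σ F) (fun i => σ (z i)) (ext σ W) (ext σ V) := by
  rcases h with ⟨ζ, hζ, h⟩ | ⟨ξ, mξ, η, mη, h1, h2, h3⟩
  · refine Or.inl ⟨_, ⟨mem_ext σ hζ.1, mem_ext σ hζ.2⟩, ?_⟩
    rw [d1_map]
    exact ne_map σ h
  · refine Or.inr ⟨_, mem_ext σ mξ, _, mem_ext σ mη, ?_, ?_, ?_⟩
    · rw [d1_map, h1, map_zero]
    · rw [d1_map, h2, map_zero]
    · rw [d2_map]
      exact ne_map σ h3

end map

section

variable {α K κ : Type} [Fintype α] [Field K] {ι : Type} {L : ι → Type}
  [∀ v, NontriviallyNormedField (L v)] (σ : ∀ v, K →+* L v) {F : MvPolynomial α K}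
  {V : κ → Submodule K (α → K)}

theorem linked_map {T : Unit → α → K} {W : Unit → Submodule K (α → K)}
    (h : Linked (L := fun _ : Unit => K) (fun _ => F) (fun i _ => V i) T W) :
    Linked (fun v => map (σ v) F) (fun i v => ext (σ v) (V i)) (fun v i => σ v (T () i))
      (fun v => ext (σ v) (W ())) := by
  induction h with
  | bot =>
    have e : (fun v => ext (σ v) (⊥ : Submodule K (α → K))) = fun v => ⊥ := by
      funext v
      exact ext_bot (σ v)
    rw [e]
    exact Linked.bot
  | join W W' i hW h ih =>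
    refine Linked.join _ _ i ih fun v => ?_
    rcases h () with h1 | ⟨h1, ⟨w, mw, hw⟩, h3⟩
    · left
      rw [h1]
    · right
      refine ⟨?_, ⟨_, mem_ext (σ v) mw, ?_⟩, ?_⟩
      · rw [h1]
        exact ext_sup (σ v) _ _
      · rw [d1_map]
        exact ne_map (σ v) hw
      · rcases h3 with h3 | h3
        · left
          rw [h3]
          exact ext_bot (σ v)
        · exact Or.inr (link_map (σ v) h3)

theorem nice_map {T : Unit → α → K}
    (h : Nice (L := fun _ : Unit => K) (fun _ => F) (fun i _ => V i) T) :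
    Nice (fun v => map (σ v) F) (fun i v => ext (σ v) (V i)) (fun v i => σ v (T () i)) := by
  induction h with
  | good T h =>
    refine Nice.good _ ⟨fun i v => ?_, ?_⟩
    · obtain ⟨w, mw, hw⟩ := h.1 i ()
      refine ⟨_, mem_ext (σ v) mw, ?_⟩
      rw [qp_map]
      exact ne_map (σ v) hw
    · have h2 := linked_map σ h.2
      have e : (fun v => ext (σ v) (⊤ : Submodule K (α → K))) = fun v => ⊤ := by
        funext v
        exact ext_top (σ v)
      rw [e] at h2
      exact h2
  | move T i u hu h ih =>
    refine Nice.move _ i (fun v j => σ v (u () j)) (fun v => ⟨mem_ext (σ v) (hu ()).1, ?_⟩) ?_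
    · rw [qp_map]
      exact ne_map (σ v) (hu ()).2
    · have e : (fun v => refl (map (σ v) F) (fun j => σ v (u () j)) (fun j => σ v (T () j))) =
          fun v i => σ v (refl F (u ()) (T ()) i) := by
        funext v
        exact refl_map (σ v) F _ _
      rw [e]
      exact ih

end

end Pool.Agent.T6.H77.SQ
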